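import Pool.Agent.H24.GS.Stm

/-! # Crew GS, part MAX: the minimum principle for `Q_σ` -/

set_option autoImplicit false

noncomputable section

namespace Pool.Agent.H8.GS

open Complex Set Filter Topology MeasureTheory Metric
open Pool.Agent.H172R3.SM Pool.Agent.H172R3.SM.Config
open Pool.Agent.H24.GS
open scoped ContDiff Matrix

theorem t_MAX : S_MAX := by
  intro q u ρ hq hu hu1 hρ hlap hgrad hinf hpos z1
  by_contra hz1
  push Not at hz1
  obtain ⟨r, hr⟩ := hinf (-(q z1) / 2) (by linarith)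
  set R : ℝ := max r (‖z1‖) + 1 with hRdef
  have hrR : r ≤ R := le_trans (le_max_left _ _) (by rw [hRdef]; linarith)
  have hzR : ‖z1‖ ≤ R := le_trans (le_max_right _ _) (by rw [hRdef]; linarith)
  have hR0 : 0 < R := by
    have : 0 ≤ max r ‖z1‖ := le_trans (norm_nonneg z1) (le_max_right _ _)
    rw [hRdef]; linarith
  have hcont : Continuous q := hq.continuous
  obtain ⟨z0, hz0, hmin⟩ := (isCompact_closedBall (0 : ℂ) R).exists_isMinOn
    ⟨z1, by simpa using hzR⟩ hcont.continuousOn
  have hm1 : q z0 ≤ q z1 := hmin (by simpa using hzR)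
  have hfar : ∀ z : ℂ, r ≤ ‖z‖ → q z1 / 2 ≤ q z := by
    intro z hz
    have := abs_le.1 (hr z hz)
    linarith [this.1]
  have hglob : ∀ z : ℂ, q z0 ≤ q z := by
    intro z
    by_cases h : ‖z‖ ≤ R
    · exact hmin (by simpa using h)
    · push Not at h
      have := hfar z (by linarith)
      linarith
  -- points of the minimum set
  have hK : ∀ z : ℂ, q z = q z0 → u z < 0 ∧ q z < 0 := by
    intro z hz
    have hloc : IsLocalMin q z := by
      filter_upwards with y
      rw [hz]
      exact hglob y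
    have hf0 : fderiv ℝ q z = 0 := hloc.fderiv_eq_zero
    have hdx : dx q z = 0 := by unfold dx; rw [hf0]; rfl
    have hdy : dy q z = 0 := by unfold dy; rw [hf0]; rfl
    have hlm : IsLocalMax (fun y => - q y) z := hloc.neg
    have h2 := lap_nonpos_of_max hq.neg hlm
    rw [lap_neg] at h2
    have hg := hgrad z
    rw [hdx, hdy] at hg
    have hl := hlap z
    have hqz : q z < 0 := by rw [hz]; linarith
    refine ⟨?_, hqz⟩
    by_contra hu0
    push Not at hu0
    have hu2 : u z ≠ 1 := by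
      intro h
      have := hpos z h
      linarith
    have hu3 : u z < 1 := lt_of_le_of_ne (hu1 z).2 hu2
    have hpos2 : 0 < 1 - u z ^ 2 := by nlinarith
    have hρ0 : ρ z = 0 := by
      have : (1 - u z ^ 2) * ρ z = 0 := by rw [hg]; norm_num
      rcases mul_eq_zero.1 this with h | h
      · exact absurd h hpos2.ne'
      · exact h
    rw [hρ0, mul_zero, add_zero] at hl
    have : (1 - u z ^ 2) * q z < 0 := mul_neg_of_pos_of_neg hpos2 hqz
    linarith
  -- the complement of `{u < 0, q < 0}` in the ball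
  set C : Set ℂ := closedBall (0 : ℂ) R ∩ {z | ¬ (u z < 0 ∧ q z < 0)} with hC
  have hCc : IsCompact C := by
    apply (isCompact_closedBall (0 : ℂ) R).inter_right
    have : IsOpen {z : ℂ | u z < 0 ∧ q z < 0} :=
      (isOpen_lt hu continuous_const).inter (isOpen_lt hcont continuous_const)
    exact this.isClosed_compl
  obtain ⟨δ, hδ0, hδ⟩ : ∃ δ : ℝ, 0 < δ ∧ ∀ z ∈ C, q z0 + δ ≤ q z := by
    rcases C.eq_empty_or_nonempty with h | h
    · exact ⟨1, one_pos, fun z hz => by rw [h] at hz; exact absurd hz (Set.notMem_empty z)⟩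
    · obtain ⟨y, hy, hymin⟩ := hCc.exists_isMinOn h hcont.continuousOn
      refine ⟨q y - q z0, ?_, fun z hz => ?_⟩
      · have h1 := hglob y
        rcases eq_or_lt_of_le h1 with h2 | h2
        · exact absurd (hK y h2.symm) hy.2
        · linarith
      · have : q y ≤ q z := hymin hz
        linarith
  set δ' : ℝ := min δ (-(q z1) / 2) with hδ'
  have hδ'0 : 0 < δ' := lt_min hδ0 (by linarith)
  set η : ℝ := δ' / (2 * R ^ 2) with hη
  have hη0 : 0 < η := by positivity
  have hηR : η * R ^ 2 = δ' / 2 := by rw [hη]; field_simp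
  have hqd : ContDiff ℝ ∞ (qd η) := contDiff_const.mul contDiff_normSq
  have hs : ContDiff ℝ ∞ (fun z => -(q z) + qd η z) := hq.neg.add hqd
  obtain ⟨z2, hz2, hmax⟩ := (isCompact_closedBall (0 : ℂ) R).exists_isMaxOn
    ⟨z1, by simpa using hzR⟩ hs.continuous.continuousOn
  have hz2R : ‖z2‖ ≤ R := by simpa using hz2
  have hw0 : -(q z0) + qd η z0 ≤ -(q z2) + qd η z2 := hmax hz0
  have hq0 : 0 ≤ qd η z0 := mul_nonneg hη0.le (normSq_nonneg z0)
  have hq2 : qd η z2 ≤ δ' / 2 := by
    rw [← hηR]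
    apply mul_le_mul_of_nonneg_left _ hη0.le
    rw [normSq_eq_norm_sq]
    exact pow_le_pow_left₀ (norm_nonneg _) hz2R 2
  have hlt : q z2 < q z0 + δ' := by linarith
  have hV : u z2 < 0 ∧ q z2 < 0 := by
    by_contra h
    have := hδ z2 ⟨hz2, h⟩
    have : δ' ≤ δ := min_le_left _ _
    linarith
  have hin : ‖z2‖ < R := by
    by_contra h
    push Not at h
    have h1 := hfar z2 (by linarith)
    have : δ' ≤ -(q z1) / 2 := min_le_right _ _
    linarith
  have hlm : IsLocalMax (fun z => -(q z) + qd η z) z2 := by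
    filter_upwards [ball_mem_nhds z2 (sub_pos.2 hin)] with y hy
    apply hmax
    rw [mem_closedBall, dist_zero_right]
    rw [mem_ball, dist_eq_norm] at hy
    have : ‖y‖ ≤ ‖y - z2‖ + ‖z2‖ := by
      simpa using norm_add_le (y - z2) z2
    linarith
  have h2 := lap_nonpos_of_max hs hlm
  rw [lap_add_at (f := fun z => - q z) (g := qd η) (hq.neg.contDiffAt.of_le two_le_inf)
    (hqd.contDiffAt.of_le two_le_inf), lap_qd, lap_neg] at h2
  have hl := hlap z2
  have hu4 : 0 ≤ 1 - u z2 ^ 2 := by nlinarith [(hu1 z2).1, (hu1 z2).2]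
  have h3 : (1 - u z2 ^ 2) * q z2 ≤ 0 := mul_nonpos_of_nonneg_of_nonpos hu4 hV.2.le
  have h4 : u z2 * ρ z2 ≤ 0 := mul_nonpos_of_nonpos_of_nonneg hV.1.le (hρ z2)
  linarith

end Pool.Agent.H8.GS
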