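import Pool.Agent.H24.GS.Stm

/-! # Crew GS, part STR: the stress tensor -/

set_option autoImplicit false

noncomputable section

namespace Pool.Agent.H8.GS

open Complex Set Filter Topology MeasureTheory Metric
open Pool.Agent.H172R3.SM Pool.Agent.H172R3.SM.Config
open Pool.Agent.H24.GS
open scoped ContDiff Matrix

theorem comp_i {V : ℂ → Fin 3 → ℝ} (h : ContDiff ℝ ∞ V) (z v : ℂ) (i : Fin 3) :
    fderiv ℝ V z v i = fderiv ℝ (fun z => V z i) z v := by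
  have h1 := (h.differentiable (by simp) z).hasFDerivAt
  have h2 := (hasFDerivAt_pi'.1 h1) i
  rw [h2.fderiv]
  rfl

section dirder

variable {f g : ℂ → ℝ}

theorem dv_mul (hf : ContDiff ℝ ∞ f) (hg : ContDiff ℝ ∞ g) (z v : ℂ) :
    fderiv ℝ (fun z => f z * g z) z v = fderiv ℝ f z v * g z + f z * fderiv ℝ g z v := by
  have h1 := (hf.differentiable (by simp) z).hasFDerivAt
  have h2 := (hg.differentiable (by simp) z).hasFDerivAt
  have h3 : HasFDerivAt (fun z => f z * g z) _ z := h1.mul h2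
  rw [h3.fderiv]
  simp
  ring

theorem dv_add (hf : ContDiff ℝ ∞ f) (hg : ContDiff ℝ ∞ g) (z v : ℂ) :
    fderiv ℝ (fun z => f z + g z) z v = fderiv ℝ f z v + fderiv ℝ g z v := by
  have h1 := (hf.differentiable (by simp) z).hasFDerivAt
  have h2 := (hg.differentiable (by simp) z).hasFDerivAt
  have h3 : HasFDerivAt (fun z => f z + g z) _ z := h1.add h2
  rw [h3.fderiv]
  simp

theorem dv_sub (hf : ContDiff ℝ ∞ f) (hg : ContDiff ℝ ∞ g) (z v : ℂ) :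
    fderiv ℝ (fun z => f z - g z) z v = fderiv ℝ f z v - fderiv ℝ g z v := by
  have h1 := (hf.differentiable (by simp) z).hasFDerivAt
  have h2 := (hg.differentiable (by simp) z).hasFDerivAt
  have h3 : HasFDerivAt (fun z => f z - g z) _ z := h1.sub h2
  rw [h3.fderiv]
  simp

theorem dv_dot {P0 P1 P2 Q0 Q1 Q2 : ℂ → ℝ} (hP0 : ContDiff ℝ ∞ P0) (hP1 : ContDiff ℝ ∞ P1)
    (hP2 : ContDiff ℝ ∞ P2) (hQ0 : ContDiff ℝ ∞ Q0) (hQ1 : ContDiff ℝ ∞ Q1)
    (hQ2 : ContDiff ℝ ∞ Q2) (z v : ℂ) :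
    fderiv ℝ (fun z => P0 z * Q0 z + P1 z * Q1 z + P2 z * Q2 z) z v =
      fderiv ℝ P0 z v * Q0 z + P0 z * fderiv ℝ Q0 z v + fderiv ℝ P1 z v * Q1 z +
      P1 z * fderiv ℝ Q1 z v + fderiv ℝ P2 z v * Q2 z + P2 z * fderiv ℝ Q2 z v := by
  rw [dv_add (f := fun z => P0 z * Q0 z + P1 z * Q1 z) (g := fun z => P2 z * Q2 z)
    ((hP0.mul hQ0).add (hP1.mul hQ1)) (hP2.mul hQ2),
    dv_add (f := fun z => P0 z * Q0 z) (g := fun z => P1 z * Q1 z) (hP0.mul hQ0) (hP1.mul hQ1),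
    dv_mul hP0 hQ0, dv_mul hP1 hQ1, dv_mul hP2 hQ2]
  ring

theorem dv_T {P0 P1 P2 Q0 Q1 Q2 F k : ℂ → ℝ} (hP0 : ContDiff ℝ ∞ P0) (hP1 : ContDiff ℝ ∞ P1)
    (hP2 : ContDiff ℝ ∞ P2) (hQ0 : ContDiff ℝ ∞ Q0) (hQ1 : ContDiff ℝ ∞ Q1)
    (hQ2 : ContDiff ℝ ∞ Q2) (hF : ContDiff ℝ ∞ F) (hk : ContDiff ℝ ∞ k) (z v : ℂ) :
    fderiv ℝ (fun z => 1 / 2 * ((P0 z * P0 z + P1 z * P1 z + P2 z * P2 z) -
      (Q0 z * Q0 z + Q1 z * Q1 z + Q2 z * Q2 z) + (F z * F z - (1 - k z) * (1 - k z)))) z v =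
      P0 z * fderiv ℝ P0 z v + P1 z * fderiv ℝ P1 z v + P2 z * fderiv ℝ P2 z v
      - Q0 z * fderiv ℝ Q0 z v - Q1 z * fderiv ℝ Q1 z v - Q2 z * fderiv ℝ Q2 z v
      + F z * fderiv ℝ F z v + (1 - k z) * fderiv ℝ k z v := by
  have hPP : ContDiff ℝ ∞ (fun z => P0 z * P0 z + P1 z * P1 z + P2 z * P2 z) :=
    ((hP0.mul hP0).add (hP1.mul hP1)).add (hP2.mul hP2)
  have hQQ : ContDiff ℝ ∞ (fun z => Q0 z * Q0 z + Q1 z * Q1 z + Q2 z * Q2 z) :=
    ((hQ0.mul hQ0).add (hQ1.mul hQ1)).add (hQ2.mul hQ2)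
  have h1k : ContDiff ℝ ∞ (fun z => 1 - k z) := contDiff_const.sub hk
  have hFF : ContDiff ℝ ∞ (fun z => F z * F z) := hF.mul hF
  have hkk : ContDiff ℝ ∞ (fun z => (1 - k z) * (1 - k z)) := h1k.mul h1k
  have hG : ContDiff ℝ ∞ (fun z => (P0 z * P0 z + P1 z * P1 z + P2 z * P2 z) -
      (Q0 z * Q0 z + Q1 z * Q1 z + Q2 z * Q2 z) + (F z * F z - (1 - k z) * (1 - k z))) :=
    (hPP.sub hQQ).add (hFF.sub hkk)
  have hc : ContDiff ℝ ∞ (fun _ : ℂ => (1 / 2 : ℝ)) := contDiff_const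
  have hone : ContDiff ℝ ∞ (fun _ : ℂ => (1 : ℝ)) := contDiff_const
  rw [dv_mul hc hG, dv_add (hPP.sub hQQ) (hFF.sub hkk), dv_sub hPP hQQ, dv_sub hFF hkk,
    dv_dot hP0 hP1 hP2 hP0 hP1 hP2, dv_dot hQ0 hQ1 hQ2 hQ0 hQ1 hQ2, dv_mul hF hF,
    dv_mul h1k h1k, dv_sub hone hk]
  have h0 : fderiv ℝ (fun _ : ℂ => (1 / 2 : ℝ)) z = 0 := by simp
  have h01 : fderiv ℝ (fun _ : ℂ => (1 : ℝ)) z = 0 := by simp
  rw [h0, h01]
  simp
  ring

end dirder

/-- all component equations of a critical configuration at a point -/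
theorem components (c : Config) (h : IsCritical c) :
    ∃ P0 P1 P2 Q0 Q1 Q2 : ℂ → ℝ,
      (ContDiff ℝ ∞ P0 ∧ ContDiff ℝ ∞ P1 ∧ ContDiff ℝ ∞ P2 ∧ ContDiff ℝ ∞ Q0 ∧
        ContDiff ℝ ∞ Q1 ∧ ContDiff ℝ ∞ Q2) ∧
      (∀ z, c.D1 z = ![P0 z, P1 z, P2 z]) ∧ (∀ z, c.D2 z = ![Q0 z, Q1 z, Q2 z]) ∧
      ContDiff ℝ ∞ c.F12 ∧ ContDiff ℝ ∞ (fun z => c.phi z 2) ∧
      (∀ z, dx (fun z => c.phi z 2) z = P2 z ∧ dy (fun z => c.phi z 2) z = Q2 z) ∧
      (∀ z, c.phi z 0 ^ 2 + c.phi z 1 ^ 2 + c.phi z 2 ^ 2 = 1) ∧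
      (∀ z, c.phi z 0 * P0 z + c.phi z 1 * P1 z + c.phi z 2 * P2 z = 0) ∧
      (∀ z, c.phi z 0 * Q0 z + c.phi z 1 * Q1 z + c.phi z 2 * Q2 z = 0) ∧
      (∀ z, dx Q0 z - dy P0 z - c.A1 z * Q1 z + c.A2 z * P1 z = -(c.F12 z * c.phi z 1)) ∧
      (∀ z, dx Q1 z - dy P1 z + c.A1 z * Q0 z - c.A2 z * P0 z = c.F12 z * c.phi z 0) ∧
      (∀ z, dx Q2 z - dy P2 z = 0) ∧
      (∀ z, dy c.F12 z + (c.phi z 0 * P1 z - c.phi z 1 * P0 z) = 0) ∧
      (∀ z, - dx c.F12 z + (c.phi z 0 * Q1 z - c.phi z 1 * Q0 z) = 0) ∧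
      (∀ z, (dx P1 z + c.A1 z * P0 z + dy Q1 z + c.A2 z * Q0 z) * c.phi z 2 -
        (dx P2 z + dy Q2 z + (1 - c.phi z 2)) * c.phi z 1 = 0) ∧
      (∀ z, (dx P2 z + dy Q2 z + (1 - c.phi z 2)) * c.phi z 0 -
        (dx P0 z - c.A1 z * P1 z + dy Q0 z - c.A2 z * Q1 z) * c.phi z 2 = 0) ∧
      (∀ z, (dx P0 z - c.A1 z * P1 z + dy Q0 z - c.A2 z * Q1 z) * c.phi z 1 -
        (dx P1 z + c.A1 z * P0 z + dy Q1 z + c.A2 z * Q0 z) * c.phi z 0 = 0) := by
  have hs := h.smooth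
  have ha : ContDiff ℝ ∞ (fun z => c.phi z 0) := contDiff_pi.1 hs 0
  have hb : ContDiff ℝ ∞ (fun z => c.phi z 1) := contDiff_pi.1 hs 1
  have hk : ContDiff ℝ ∞ (fun z => c.phi z 2) := contDiff_pi.1 hs 2
  have hA1 := h.smooth1
  have hA2 := h.smooth2
  set P0 : ℂ → ℝ := fun z => dx (fun z => c.phi z 0) z - c.A1 z * c.phi z 1 with hP0
  set P1 : ℂ → ℝ := fun z => dx (fun z => c.phi z 1) z + c.A1 z * c.phi z 0 with hP1
  set P2 : ℂ → ℝ := fun z => dx (fun z => c.phi z 2) z with hP2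
  set Q0 : ℂ → ℝ := fun z => dy (fun z => c.phi z 0) z - c.A2 z * c.phi z 1 with hQ0
  set Q1 : ℂ → ℝ := fun z => dy (fun z => c.phi z 1) z + c.A2 z * c.phi z 0 with hQ1
  set Q2 : ℂ → ℝ := fun z => dy (fun z => c.phi z 2) z with hQ2
  have sP0 : ContDiff ℝ ∞ P0 := (contDiff_dx ha).sub (hA1.mul hb)
  have sP1 : ContDiff ℝ ∞ P1 := (contDiff_dx hb).add (hA1.mul ha)
  have sP2 : ContDiff ℝ ∞ P2 := contDiff_dx hk
  have sQ0 : ContDiff ℝ ∞ Q0 := (contDiff_dy ha).sub (hA2.mul hb)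
  have sQ1 : ContDiff ℝ ∞ Q1 := (contDiff_dy hb).add (hA2.mul ha)
  have sQ2 : ContDiff ℝ ∞ Q2 := contDiff_dy hk
  have e1 : ∀ z, c.D1 z = ![P0 z, P1 z, P2 z] := by
    intro z
    funext i
    fin_cases i
    · simp only [D1, Pi.add_apply]
      rw [comp_i hs]
      simp [nn, crossProduct, hP0, dx]
      ring
    · simp only [D1, Pi.add_apply]
      rw [comp_i hs]
      simp [nn, crossProduct, hP1, dx]
    · simp only [D1, Pi.add_apply]
      rw [comp_i hs]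
      simp [nn, crossProduct, hP2, dx]
  have e2 : ∀ z, c.D2 z = ![Q0 z, Q1 z, Q2 z] := by
    intro z
    funext i
    fin_cases i
    · simp only [D2, Pi.add_apply]
      rw [comp_i hs]
      simp [nn, crossProduct, hQ0, dy]
      ring
    · simp only [D2, Pi.add_apply]
      rw [comp_i hs]
      simp [nn, crossProduct, hQ1, dy]
    · simp only [D2, Pi.add_apply]
      rw [comp_i hs]
      simp [nn, crossProduct, hQ2, dy]
  have e1f : c.D1 = fun z => ![P0 z, P1 z, P2 z] := funext e1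
  have e2f : c.D2 = fun z => ![Q0 z, Q1 z, Q2 z] := funext e2
  have hF : ContDiff ℝ ∞ c.F12 := by
    have : c.F12 = fun z => dx c.A2 z - dy c.A1 z := rfl
    rw [this]
    exact (contDiff_dx hA2).sub (contDiff_dy hA1)
  have hsph : ∀ z, c.phi z 0 ^ 2 + c.phi z 1 ^ 2 + c.phi z 2 ^ 2 = 1 := by
    intro z
    have := h.sphere z
    simp only [dotProduct, Fin.sum_univ_three] at this
    linarith
  have htang : ∀ z v : ℂ, c.phi z 0 * fderiv ℝ (fun z => c.phi z 0) z v +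
      c.phi z 1 * fderiv ℝ (fun z => c.phi z 1) z v +
      c.phi z 2 * fderiv ℝ (fun z => c.phi z 2) z v = 0 := by
    intro z v
    have h1 := dv_dot ha hb hk ha hb hk z v
    have h4 : (fun z => c.phi z 0 * c.phi z 0 + c.phi z 1 * c.phi z 1 + c.phi z 2 * c.phi z 2) =
        fun _ => (1 : ℝ) := by
      funext z
      have := hsph z
      linarith
    rw [h4] at h1
    have h01 : fderiv ℝ (fun _ : ℂ => (1 : ℝ)) z = 0 := by simp
    rw [h01] at h1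
    simp only [zero_apply] at h1
    linarith
  -- smoothness of D1, D2
  have sD1 : ContDiff ℝ ∞ c.D1 := by
    rw [e1f, contDiff_pi]
    intro i
    fin_cases i
    · exact sP0
    · exact sP1
    · exact sP2
  have sD2 : ContDiff ℝ ∞ c.D2 := by
    rw [e2f, contDiff_pi]
    intro i
    fin_cases i
    · exact sQ0
    · exact sQ1
    · exact sQ2
  have fD1 : ∀ z v : ℂ, fderiv ℝ c.D1 z v = ![fderiv ℝ P0 z v, fderiv ℝ P1 z v,
      fderiv ℝ P2 z v] := by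
    intro z v
    funext i
    rw [comp_i sD1, e1f]
    fin_cases i <;> rfl
  have fD2 : ∀ z v : ℂ, fderiv ℝ c.D2 z v = ![fderiv ℝ Q0 z v, fderiv ℝ Q1 z v,
      fderiv ℝ Q2 z v] := by
    intro z v
    funext i
    rw [comp_i sD2, e2f]
    fin_cases i <;> rfl
  -- second derivatives
  have dxQ0 : ∀ z v : ℂ, fderiv ℝ Q0 z v = fderiv ℝ (dy fun z => c.phi z 0) z v -
      (fderiv ℝ c.A2 z v * c.phi z 1 + c.A2 z * fderiv ℝ (fun z => c.phi z 1) z v) := by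
    intro z v
    rw [hQ0, dv_sub (contDiff_dy ha) (hA2.mul hb), dv_mul hA2 hb]
  have dxQ1 : ∀ z v : ℂ, fderiv ℝ Q1 z v = fderiv ℝ (dy fun z => c.phi z 1) z v +
      (fderiv ℝ c.A2 z v * c.phi z 0 + c.A2 z * fderiv ℝ (fun z => c.phi z 0) z v) := by
    intro z v
    rw [hQ1, dv_add (contDiff_dy hb) (hA2.mul ha), dv_mul hA2 ha]
  have dyP0 : ∀ z v : ℂ, fderiv ℝ P0 z v = fderiv ℝ (dx fun z => c.phi z 0) z v -
      (fderiv ℝ c.A1 z v * c.phi z 1 + c.A1 z * fderiv ℝ (fun z => c.phi z 1) z v) := by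
    intro z v
    rw [hP0, dv_sub (contDiff_dx ha) (hA1.mul hb), dv_mul hA1 hb]
  have dyP1 : ∀ z v : ℂ, fderiv ℝ P1 z v = fderiv ℝ (dx fun z => c.phi z 1) z v +
      (fderiv ℝ c.A1 z v * c.phi z 0 + c.A1 z * fderiv ℝ (fun z => c.phi z 0) z v) := by
    intro z v
    rw [hP1, dv_add (contDiff_dx hb) (hA1.mul ha), dv_mul hA1 ha]
  have sym : ∀ {g : ℂ → ℝ}, ContDiff ℝ ∞ g → ∀ z, fderiv ℝ (dy g) z 1 = fderiv ℝ (dx g) z I := by
    intro g hg z
    exact dxdy_symm (hg.contDiffAt.of_le two_le_inf)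
  have hn : ∀ z, nn ⬝ᵥ c.phi z = c.phi z 2 := fun z => nn_dot c z
  refine ⟨P0, P1, P2, Q0, Q1, Q2, ⟨sP0, sP1, sP2, sQ0, sQ1, sQ2⟩, e1, e2, hF, hk,
    fun z => ⟨rfl, rfl⟩, hsph, ?_, ?_, ?_, ?_, ?_, ?_, ?_, ?_, ?_, ?_⟩
  · intro z
    have := htang z 1
    simp only [hP0, hP1, hP2, dx]
    linear_combination this
  · intro z
    have := htang z I
    simp only [hQ0, hQ1, hQ2, dy]
    linear_combination this
  · intro z
    have h1 := dxQ0 z 1
    have h2 := dyP0 z I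
    have h3 := sym ha z
    have h4 : c.F12 z = fderiv ℝ c.A2 z 1 - fderiv ℝ c.A1 z I := rfl
    rw [h3] at h1
    have h5 : Q1 z = fderiv ℝ (fun z => c.phi z 1) z I + c.A2 z * c.phi z 0 := rfl
    have h6 : P1 z = fderiv ℝ (fun z => c.phi z 1) z 1 + c.A1 z * c.phi z 0 := rfl
    show fderiv ℝ Q0 z 1 - fderiv ℝ P0 z I - _ + _ = _
    rw [h1, h2, h4, h5, h6]
    ring
  · intro z
    have h1 := dxQ1 z 1
    have h2 := dyP1 z I
    have h3 := sym hb z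
    have h4 : c.F12 z = fderiv ℝ c.A2 z 1 - fderiv ℝ c.A1 z I := rfl
    rw [h3] at h1
    have h5 : Q0 z = fderiv ℝ (fun z => c.phi z 0) z I - c.A2 z * c.phi z 1 := rfl
    have h6 : P0 z = fderiv ℝ (fun z => c.phi z 0) z 1 - c.A1 z * c.phi z 1 := rfl
    show fderiv ℝ Q1 z 1 - fderiv ℝ P1 z I + _ - _ = _
    rw [h1, h2, h4, h5, h6]
    ring
  · intro z
    have h3 := sym hk z
    show fderiv ℝ (dy fun z => c.phi z 2) z 1 - fderiv ℝ (dx fun z => c.phi z 2) z I = 0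
    rw [h3, sub_self]
  · intro z
    have h1 := h.elA1 z
    rw [e1 z] at h1
    simp [nn, crossProduct, dotProduct, Fin.sum_univ_three] at h1
    linear_combination h1
  · intro z
    have h1 := h.elA2 z
    rw [e2 z] at h1
    simp [nn, crossProduct, dotProduct, Fin.sum_univ_three] at h1
    linear_combination h1
  · intro z
    have h1 := congrFun (h.elphi z) 0
    rw [fD1, fD2, e1 z, e2 z, hn z] at h1
    simp [nn, crossProduct] at h1
    simp only [dx, dy]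
    linear_combination h1
  · intro z
    have h1 := congrFun (h.elphi z) 1
    rw [fD1, fD2, e1 z, e2 z, hn z] at h1
    simp [nn, crossProduct] at h1
    simp only [dx, dy]
    linear_combination h1
  · intro z
    have h1 := congrFun (h.elphi z) 2
    rw [fD1, fD2, e1 z, e2 z, hn z] at h1
    simp [nn, crossProduct] at h1
    simp only [dx, dy]
    linear_combination h1

theorem t_STR : S_STR := by
  intro c h
  obtain ⟨P0, P1, P2, Q0, Q1, Q2, ⟨sP0, sP1, sP2, sQ0, sQ1, sQ2⟩, e1, e2, hF, hk, hk2, hsph,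
    hPt, hQt, hS0, hS1, hS2, hel1, hel2, hX0, hX1, hX2⟩ := components c h
  refine ⟨fun z => 1 / 2 * ((P0 z * P0 z + P1 z * P1 z + P2 z * P2 z) -
      (Q0 z * Q0 z + Q1 z * Q1 z + Q2 z * Q2 z) + (c.F12 z * c.F12 z -
        (1 - c.phi z 2) * (1 - c.phi z 2))),
    fun z => P0 z * Q0 z + P1 z * Q1 z + P2 z * Q2 z,
    fun z => 1 / 2 * ((Q0 z * Q0 z + Q1 z * Q1 z + Q2 z * Q2 z) -
      (P0 z * P0 z + P1 z * P1 z + P2 z * P2 z) + (c.F12 z * c.F12 z -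
        (1 - c.phi z 2) * (1 - c.phi z 2))), ?_, ?_, ?_, ?_, ?_, ?_, ?_, ?_, ?_⟩
  · exact contDiff_const.mul (((((sP0.mul sP0).add (sP1.mul sP1)).add (sP2.mul sP2)).sub
      (((sQ0.mul sQ0).add (sQ1.mul sQ1)).add (sQ2.mul sQ2))).add
      ((hF.mul hF).sub ((contDiff_const.sub hk).mul (contDiff_const.sub hk))))
  · exact ((sP0.mul sQ0).add (sP1.mul sQ1)).add (sP2.mul sQ2)
  · exact contDiff_const.mul (((((sQ0.mul sQ0).add (sQ1.mul sQ1)).add (sQ2.mul sQ2)).sub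
      (((sP0.mul sP0).add (sP1.mul sP1)).add (sP2.mul sP2))).add
      ((hF.mul hF).sub ((contDiff_const.sub hk).mul (contDiff_const.sub hk))))
  · intro z
    have h1 := dv_T sP0 sP1 sP2 sQ0 sQ1 sQ2 hF hk z 1
    have h2 := dv_dot sP0 sP1 sP2 sQ0 sQ1 sQ2 z I
    unfold dx dy
    rw [h1, h2]
    have a1 := hS0 z
    have a2 := hS1 z
    have a3 := hS2 z
    have a4 := hel2 z
    have a5 := hX0 z
    have a6 := hX1 z
    have a7 := hX2 z
    have a8 := hPt z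
    have a9 := hsph z
    have a10 := (hk2 z).1
    unfold dx dy at a1 a2 a3 a5 a6 a7
    unfold dx at a4 a10
    generalize fderiv ℝ P0 z 1 = xP0 at *
    generalize fderiv ℝ P1 z 1 = xP1 at *
    generalize fderiv ℝ P2 z 1 = xP2 at *
    generalize fderiv ℝ Q0 z 1 = xQ0 at *
    generalize fderiv ℝ Q1 z 1 = xQ1 at *
    generalize fderiv ℝ Q2 z 1 = xQ2 at *
    generalize fderiv ℝ P0 z I = yP0 at *
    generalize fderiv ℝ P1 z I = yP1 at *
    generalize fderiv ℝ P2 z I = yP2 at *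
    generalize fderiv ℝ Q0 z I = yQ0 at *
    generalize fderiv ℝ Q1 z I = yQ1 at *
    generalize fderiv ℝ Q2 z I = yQ2 at *
    generalize fderiv ℝ c.F12 z 1 = xF at *
    generalize c.F12 z = F at *
    rw [a10]
    generalize P0 z = p0 at *
    generalize P1 z = p1 at *
    generalize P2 z = p2 at *
    generalize Q0 z = q0 at *
    generalize Q1 z = q1 at *
    generalize Q2 z = q2 at *
    generalize c.A1 z = A at *
    generalize c.A2 z = B at *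
    generalize c.phi z 0 = a at *
    generalize c.phi z 1 = b at *
    generalize c.phi z 2 = k at *
    -- X . P = 0
    have hXP : (xP0 - A * p1 + yQ0 - B * q1) * p0 + (xP1 + A * p0 + yQ1 + B * q0) * p1 +
        (xP2 + yQ2 + (1 - k)) * p2 = 0 := by
      linear_combination (-((xP0 - A * p1 + yQ0 - B * q1) * p0 +
        (xP1 + A * p0 + yQ1 + B * q0) * p1 + (xP2 + yQ2 + (1 - k)) * p2)) * a9 +
        ((xP0 - A * p1 + yQ0 - B * q1) * a + (xP1 + A * p0 + yQ1 + B * q0) * b +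
          (xP2 + yQ2 + (1 - k)) * k) * a8 +
        (p1 * k - p2 * b) * a5 + (p2 * a - p0 * k) * a6 + (p0 * b - p1 * a) * a7
    linear_combination hXP - q0 * a1 - q1 * a2 - q2 * a3 - F * a4
  · intro z
    have h1 := dv_T sQ0 sQ1 sQ2 sP0 sP1 sP2 hF hk z I
    have h2 := dv_dot sP0 sP1 sP2 sQ0 sQ1 sQ2 z 1
    unfold dx dy
    rw [h1, h2]
    have a1 := hS0 z
    have a2 := hS1 z
    have a3 := hS2 z
    have a4 := hel1 z
    have a5 := hX0 z
    have a6 := hX1 z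
    have a7 := hX2 z
    have a8 := hQt z
    have a9 := hsph z
    have a10 := (hk2 z).2
    unfold dx dy at a1 a2 a3 a5 a6 a7
    unfold dy at a4 a10
    generalize fderiv ℝ P0 z 1 = xP0 at *
    generalize fderiv ℝ P1 z 1 = xP1 at *
    generalize fderiv ℝ P2 z 1 = xP2 at *
    generalize fderiv ℝ Q0 z 1 = xQ0 at *
    generalize fderiv ℝ Q1 z 1 = xQ1 at *
    generalize fderiv ℝ Q2 z 1 = xQ2 at *
    generalize fderiv ℝ P0 z I = yP0 at *
    generalize fderiv ℝ P1 z I = yP1 at *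
    generalize fderiv ℝ P2 z I = yP2 at *
    generalize fderiv ℝ Q0 z I = yQ0 at *
    generalize fderiv ℝ Q1 z I = yQ1 at *
    generalize fderiv ℝ Q2 z I = yQ2 at *
    generalize fderiv ℝ c.F12 z I = yF at *
    generalize c.F12 z = F at *
    rw [a10]
    generalize P0 z = p0 at *
    generalize P1 z = p1 at *
    generalize P2 z = p2 at *
    generalize Q0 z = q0 at *
    generalize Q1 z = q1 at *
    generalize Q2 z = q2 at *
    generalize c.A1 z = A at *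
    generalize c.A2 z = B at *
    generalize c.phi z 0 = a at *
    generalize c.phi z 1 = b at *
    generalize c.phi z 2 = k at *
    have hXQ : (xP0 - A * p1 + yQ0 - B * q1) * q0 + (xP1 + A * p0 + yQ1 + B * q0) * q1 +
        (xP2 + yQ2 + (1 - k)) * q2 = 0 := by
      linear_combination (-((xP0 - A * p1 + yQ0 - B * q1) * q0 +
        (xP1 + A * p0 + yQ1 + B * q0) * q1 + (xP2 + yQ2 + (1 - k)) * q2)) * a9 +
        ((xP0 - A * p1 + yQ0 - B * q1) * a + (xP1 + A * p0 + yQ1 + B * q0) * b +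
          (xP2 + yQ2 + (1 - k)) * k) * a8 +
        (q1 * k - q2 * b) * a5 + (q2 * a - q0 * k) * a6 + (q0 * b - q1 * a) * a7
    linear_combination hXQ + p0 * a1 + p1 * a2 + p2 * a3 + F * a4
  · intro z
    simp only
    ring
  · intro z
    rw [e1 z, e2 z, nn_dot c z]
    simp only [dotProduct, Fin.sum_univ_three, Matrix.cons_val_zero, Matrix.cons_val_one,
      Matrix.cons_val]
    rw [abs_le]
    constructor <;> nlinarith [sq_nonneg (P0 z), sq_nonneg (P1 z), sq_nonneg (P2 z),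
      sq_nonneg (Q0 z), sq_nonneg (Q1 z), sq_nonneg (Q2 z), sq_nonneg (c.F12 z),
      sq_nonneg (1 - c.phi z 2)]
  · intro z
    rw [e1 z, e2 z, nn_dot c z]
    simp only [dotProduct, Fin.sum_univ_three, Matrix.cons_val_zero, Matrix.cons_val_one,
      Matrix.cons_val]
    rw [abs_le]
    constructor <;> nlinarith [sq_nonneg (P0 z - Q0 z), sq_nonneg (P1 z - Q1 z),
      sq_nonneg (P2 z - Q2 z), sq_nonneg (P0 z + Q0 z), sq_nonneg (P1 z + Q1 z),
      sq_nonneg (P2 z + Q2 z), sq_nonneg (c.F12 z), sq_nonneg (1 - c.phi z 2),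
      sq_nonneg (P0 z), sq_nonneg (P1 z), sq_nonneg (P2 z),
      sq_nonneg (Q0 z), sq_nonneg (Q1 z), sq_nonneg (Q2 z)]
  · intro z
    rw [e1 z, e2 z, nn_dot c z]
    simp only [dotProduct, Fin.sum_univ_three, Matrix.cons_val_zero, Matrix.cons_val_one,
      Matrix.cons_val]
    rw [abs_le]
    constructor <;> nlinarith [sq_nonneg (P0 z), sq_nonneg (P1 z), sq_nonneg (P2 z),
      sq_nonneg (Q0 z), sq_nonneg (Q1 z), sq_nonneg (Q2 z), sq_nonneg (c.F12 z),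
      sq_nonneg (1 - c.phi z 2)]

end Pool.Agent.H8.GS
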